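import Pool.Agent.N179.TL.Ar
import Pool.Agent.N876.FL.NR
import Pool.Agent.Helper17.BP.K3Defs

/-!
# Numbers of K3 type of different heights have no resonances
-/

set_option autoImplicit false

namespace Pool.Agent.Helper17.BP

open NumberField Module Polynomial Pool.Agent.N179.TL Pool.Agent.TH121.KT Pool.Agent.W517.K3

section

variable {p : ℕ} [Fact p.Prime] {K : Type} [Field K] [CharZero K]

variable {r : ℕ} {E : Fin r → Type} [∀ i, Field (E i)]
  [∀ i, NumberField (E i)] [∀ i, IsCMField (E i)] {α : ∀ i, E i}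

theorem hasSlopesIn_pps {m : ℕ} {Γ : Set ℚ} {ν : K} (h : HasSlopesIn p m Γ ν) : PPs p Γ m ν :=
  ⟨m, 1, ν, one_pos, (mul_one m).symm, (pow_one ν).symm, h⟩

theorem nores_k3 [IsAlgClosed K] {m : ℕ} (hm : 0 < m) {e h b n : Fin r → ℕ} (he : ∀ i, 0 < e i)
    (hα : ∀ i, IsK3Number p (m * e i) (α i) (h i) (b i))
    {Γ : Set ℚ} (hA : Admissible Γ h b (fun i => finrank ℚ (E i) / 2)
      (fun i => localDegree p (α i)) n) {S : Fin r → Set K}
    (hS : ∀ i, ∀ μ ∈ S i, IsWord p m (e i) (n i) (α i) μ) {SZ : Set K}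
    (hSZ : ∀ β ∈ SZ, PPs p Γ m β) :
    Pool.Agent.N876.FL.NoResF (((p : ℕ) : K) ^ m) S SZ := by
  classical
  intro I hI μ hμ β hβ e₀ M w₀ hM heq
  have hd : ∀ i, finrank ℚ (E i) = 2 * (finrank ℚ (E i) / 2) := by
    intro i
    have h6 : IsTotallyComplex (E i) := inferInstance
    have h7 := IsTotallyComplex.finrank (E i)
    omega
  have hword : ∀ i, ∃ (N : (E i →+* K) → ℕ) (w t : ℕ), 0 < t ∧ ∑ σ, N σ ≤ n i ∧
      (i ∈ I → ∃ σ : E i →+* K, N σ ≠ N (cj σ)) ∧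
      (i ∈ I → (μ i ^ e i) ^ t = (((p : K) ^ m) ^ (e i * w) * ∏ σ : E i →+* K, σ (α i) ^ N σ) ^ t)
      ∧ (i ∉ I → ∀ σ, N σ = 0) := by
    intro i
    by_cases hi : i ∈ I
    · obtain ⟨N, w, t, h1, h2, h3, h4⟩ := hS i _ (hμ i hi)
      exact ⟨N, w, t, h1, h2, fun _ => h3, fun _ => h4, fun h => absurd hi h⟩
    · exact ⟨fun _ => 0, 0, 1, one_pos, by simp, fun h => absurd h hi, fun h => absurd h hi,
        fun _ _ => rfl⟩
  choose N w t ht hN hne hμe hN0 using hword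
  set P : ℕ := ∏ j, (m * e j) with hP
  set R : ℕ := ∏ j, t j with hR
  have hRt : ∀ i, t i ∣ R := fun i => Finset.dvd_prod_of_mem t (Finset.mem_univ i)
  have hRpos : 0 < R := Finset.prod_pos fun j _ => ht j
  set N₁ : ℕ := M * R with hN₁
  have hPe : ∀ i, P = m * e i * ∏ j ∈ Finset.univ.erase i, (m * e j) := fun i => by
    rw [hP, ← Finset.mul_prod_erase Finset.univ (fun j => m * e j) (Finset.mem_univ i)]
  have hpow : ∀ i ∈ I, μ i ^ (N₁ * P) = ((p : K) ^ m) ^ (w i * (N₁ * P)) *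
      ∏ σ : E i →+* K, σ (α i) ^ (N₁ * (m * ∏ j ∈ Finset.univ.erase i, (m * e j)) * N i σ) := by
    intro i hi
    obtain ⟨R', hR'⟩ := hRt i
    have h1 : N₁ * P = e i * t i * (M * R' * (m * ∏ j ∈ Finset.univ.erase i, (m * e j))) := by
      rw [hN₁, hR', hPe i]
      ring
    have h2 : μ i ^ (N₁ * P) = (((p : K) ^ m) ^ (e i * w i) * ∏ σ : E i →+* K, σ (α i) ^ N i σ) ^
        (t i * (M * R' * (m * ∏ j ∈ Finset.univ.erase i, (m * e j)))) := by
      have h2' : μ i ^ (N₁ * P) = ((μ i ^ e i) ^ t i) ^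
          (M * R' * (m * ∏ j ∈ Finset.univ.erase i, (m * e j))) := by
        rw [← pow_mul, ← pow_mul, h1, mul_assoc]
      rw [h2', hμe i hi, ← pow_mul]
    rw [h2, mul_pow, ← pow_mul, ← Finset.prod_pow]
    congr 1
    · congr 1
      rw [h1]
      ring
    · refine Finset.prod_congr rfl fun σ _ => ?_
      rw [← pow_mul]
      congr 1
      rw [hN₁, hR']
      ring
  have hp0 : ((p : K)) ≠ 0 := by exact_mod_cast (Fact.out : p.Prime).ne_zero
  have hrel : letterProd α (fun i => N₁ * (m * ∏ j ∈ Finset.univ.erase i, (m * e j))) N *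
      β ^ (N₁ * ∏ j, (m * e j)) =
      (p : K) ^ (m * ((w₀ : ℤ) - e₀ - ∑ i ∈ I, (w i : ℤ)) * (N₁ * ∏ j, (m * e j) : ℕ)) := by
    have h1 : ((∏ i ∈ I, μ i) * ((p : K) ^ m) ^ e₀ * β) ^ (N₁ * P) =
        ((p : K) ^ m) ^ (w₀ * (N₁ * P)) := by
      have h2 : N₁ * P = M * (R * P) := by rw [hN₁]; ring
      rw [h2, pow_mul, heq, ← pow_mul]
      congr 1
      ring
    rw [mul_pow, mul_pow, ← Finset.prod_pow, Finset.prod_congr rfl hpow,
      Finset.prod_mul_distrib] at h1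
    have h3 : (∏ i ∈ I, ∏ σ : E i →+* K,
        σ (α i) ^ (N₁ * (m * ∏ j ∈ Finset.univ.erase i, (m * e j)) * N i σ)) =
        letterProd α (fun i => N₁ * (m * ∏ j ∈ Finset.univ.erase i, (m * e j))) N := by
      unfold letterProd
      refine Finset.prod_subset (Finset.subset_univ I) fun i _ hi => ?_
      refine Finset.prod_eq_one fun σ _ => ?_
      rw [hN0 i hi σ, mul_zero, pow_zero]
    rw [h3, Finset.prod_pow_eq_pow_sum] at h1
    have h4 : ((p : K) ^ m) ^ (∑ i ∈ I, w i * (N₁ * P)) ≠ 0 := pow_ne_zero _ (pow_ne_zero _ hp0)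
    have h5 : (((p : K) ^ m) ^ e₀) ^ (N₁ * P) ≠ 0 :=
      pow_ne_zero _ (pow_ne_zero _ (pow_ne_zero _ hp0))
    have h6 : letterProd α (fun i => N₁ * (m * ∏ j ∈ Finset.univ.erase i, (m * e j))) N *
        β ^ (N₁ * P) = ((p : K) ^ m) ^ (w₀ * (N₁ * P)) /
          (((p : K) ^ m) ^ (∑ i ∈ I, w i * (N₁ * P)) * (((p : K) ^ m) ^ e₀) ^ (N₁ * P)) := by
      rw [eq_div_iff (mul_ne_zero h4 h5), ← h1]
      ring
    rw [← hP, h6, div_eq_iff (mul_ne_zero h4 h5)]
    rw [← pow_mul, ← pow_mul, ← pow_mul, ← pow_mul, ← zpow_natCast, ← zpow_natCast,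
      ← zpow_natCast, ← zpow_add₀ hp0, ← zpow_add₀ hp0]
    congr 1
    push_cast
    rw [← Finset.sum_mul]
    ring
  have key := core (a := fun i => m * e i) (fun i => Nat.mul_pos hm (he i)) hα hd hA hm
    (hSZ β hβ) N hN _ N₁ (Nat.mul_pos hM hRpos) hrel
  obtain ⟨i, hi⟩ := hI
  obtain ⟨σ, hσ⟩ := hne i hi
  exact hσ (key i σ)

theorem isWord_integral {E : Type} [Field E] [NumberField E] [IsCMField E] {m e n : ℕ}
    (he : 0 < e) {α : E} {μ : K} (h : IsWord p m e n α μ) : IsIntegral ℚ μ := by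
  obtain ⟨N, w, t, ht, -, -, h1⟩ := h
  refine IsIntegral.of_pow he (IsIntegral.of_pow ht ?_)
  rw [h1]
  refine IsIntegral.pow (IsIntegral.mul ?_ (IsIntegral.prod _ fun σ _ => ?_)) _
  · exact ((isIntegral_natCast (R := ℚ) (a := p) (B := K)).pow m).pow _
  · refine IsIntegral.pow ?_ _
    have h2 : IsIntegral ℚ α := Algebra.IsIntegral.isIntegral α
    exact h2.map (RingHom.toRatAlgHom σ)

theorem isWord_ne_zero {E : Type} [Field E] [NumberField E] [IsCMField E] {m e n : ℕ}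
    (he : 0 < e) {α : E} (hα : α ≠ 0) {μ : K} (h : IsWord p m e n α μ) : μ ≠ 0 := by
  obtain ⟨N, w, t, ht, -, -, h1⟩ := h
  rintro rfl
  have hp0 : ((p : K)) ≠ 0 := by exact_mod_cast (Fact.out : p.Prime).ne_zero
  rw [zero_pow he.ne', zero_pow ht.ne'] at h1
  refine pow_ne_zero _ (mul_ne_zero (pow_ne_zero _ (pow_ne_zero _ hp0))
    (Finset.prod_ne_zero_iff.2 fun σ _ => pow_ne_zero _ ?_)) h1.symm
  exact (map_ne_zero σ).2 hα

end

end Pool.Agent.Helper17.BP
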