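import Pool.Agent.W484.CK.Motivic

/-!
# Motivic cohomology with the cup product pairings, motivic cohomology with compact support: definitions
-/

set_option autoImplicit false

open Polynomial CategoryTheory AlgebraicGeometry

namespace Pool.Agent.Helper17.BP

open Pool.Agent.H914 Pool.Agent.H914.VarClass Pool.Agent.H914.VarClass.Obj Pool.Agent.W492.BB
  Pool.Agent.W484.CK

/-- The restriction of the bilinear form to `P × Q` is perfect: both maps `P → Hom(Q, ℚ)` and
`Q → Hom(P, ℚ)` are bijective. -/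
def IsPerfectOn {V W : Type} [AddCommGroup V] [Module ℚ V] [AddCommGroup W] [Module ℚ W]
    (β : V →ₗ[ℚ] W →ₗ[ℚ] ℚ) (P : Submodule ℚ V) (Q : Submodule ℚ W) : Prop :=
  Function.Bijective (β.domRestrict₁₂ P Q) ∧ Function.Bijective (β.domRestrict₁₂ P Q).flip

variable {κ : Type} [Field κ] {𝒱 : VarClass κ} {A : TheoryData.{0, 0, 0} 𝒱 ℚ}

/-- The data of motivic cohomology with rational coefficients: for every integer `m` the theory
`X ↦ ⨁ H^(2n-m)(X, ℚ(n))`, with the grading by `n`, and the pairings of the theories for `m` and `-m`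
given by the cup product and the degree map. -/
structure MotivicCohomology (A : TheoryData.{0, 0, 0} 𝒱 ℚ) where
  /-- the theory `⨁ H^(2n-m)(X, ℚ(n))` -/
  H : ℤ → MotivicData A
  /-- the cup product pairing -/
  cup : ∀ (m : ℤ) (X : 𝒱.Obj), (H m).M X →ₗ[ℚ] (H (-m)).M X →ₗ[ℚ] ℚ

/-- The value `⟨t, t'⟩`. -/
def MotivicCohomology.value (M : MotivicCohomology A) (m : ℤ) {X : 𝒱.Obj} (t : (M.H m).M X)
    (t' : (M.H (-m)).M X) : ℚ :=
  M.cup m X t t'

/-- The transposed correspondence. -/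
noncomputable def transpose {X Y : 𝒱.Obj} (Γ : A.A (X.prod Y)) : A.A (Y.prod X) :=
  A.down (Obj.lift (snd X Y) (fst X Y)) Γ

/-- Correspondences act on motivic cohomology, the Frobenius endomorphisms `F X` act as
multiplication by `q ^ n` on `H^(2n-m)(X, ℚ(n))`, and the pairings are compatible with
correspondences: `⟨Γ t, t'⟩ = ⟨t, Γ' t'⟩` for the transposed correspondence `Γ'`. -/
structure IsMotivicCohomology (M : MotivicCohomology A) (F : ∀ X : 𝒱.Obj, X ⟶ X) (q : ℕ) :
    Prop where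
  motivic : ∀ m, IsMotivic (M.H m)
  frobenius : ∀ (m : ℤ) (X : 𝒱.Obj), ActsAsPower (M.H m) (F X) q
  adjoint : ∀ (m : ℤ) {X Y : 𝒱.Obj} (Γ : A.A (X.prod Y)) (t : (M.H m).M X)
    (t' : (M.H (-m)).M Y),
    M.value m ((M.H m).app Γ t) t' = M.value m t ((M.H (-m)).app (transpose Γ) t')

/-- The pairing `H^i(X, ℚ(n)) × H^(2d-i)(X, ℚ(d-n)) → ℚ`, `d = dim X`, is perfect. Here `i = 2n - m`, and
`H^(2d-i)(X, ℚ(d-n))` is the part of weight `d - n` of the theory for `-m`. -/
def MotivicCohomology.IsPerfect (M : MotivicCohomology A) (X : 𝒱.Obj) (i n : ℤ) : Prop :=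
  ∀ m : ℤ, i = 2 * n - m → IsPerfectOn (M.cup m X) ((M.H m).gr X n) ((M.H (-m)).gr X (X.dim - n))

/-- `H^i(X, ℚ(n)) = 0`. -/
def MotivicCohomology.IsZero (M : MotivicCohomology A) (X : 𝒱.Obj) (i n : ℤ) : Prop :=
  ∀ m : ℤ, i = 2 * n - m → (M.H m).gr X n = ⊥

end Pool.Agent.Helper17.BP
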