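import Mathlib
import Pool.Agent.N876.CG.Tower
import Pool.Agent.Y154.BQ.Kun

/-!
# Pairings between theories on which correspondences act, and the Künneth formula
-/

set_option autoImplicit false
set_option linter.unusedSectionVars false

open CategoryTheory AlgebraicGeometry
open scoped TensorProduct

universe u

namespace Pool.Agent.Helper17.BP

open Module Polynomial Pool.Agent.H914 Pool.Agent.H914.VarClass Pool.Agent.H914.VarClass.Obj
  Pool.Agent.W492.BB Pool.Agent.W550.Corr Pool.Agent.W484.TB Pool.Agent.W484.CH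
  Pool.Agent.Y154.BQ Pool.Agent.N876.CG

section lin

variable {V W : Type*} [AddCommGroup V] [Module ℚ V] [AddCommGroup W] [Module ℚ W]

/-- Both induced maps are bijective. -/
def Pf (β : V →ₗ[ℚ] W →ₗ[ℚ] ℚ) : Prop := Function.Bijective β ∧ Function.Bijective β.flip

theorem bij_pi_iff {J : Type*} [Fintype J] {V' W' : J → Type*} [∀ j, AddCommGroup (V' j)]
    [∀ j, Module ℚ (V' j)] [∀ j, AddCommGroup (W' j)] [∀ j, Module ℚ (W' j)]
    (β : V →ₗ[ℚ] W →ₗ[ℚ] ℚ) (β' : ∀ j, V' j →ₗ[ℚ] W' j →ₗ[ℚ] ℚ)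
    (e : V ≃ₗ[ℚ] (∀ j, V' j)) (f : W ≃ₗ[ℚ] (∀ j, W' j))
    (h : ∀ v w, β v w = ∑ j, β' j (e v j) (f w j)) :
    Function.Bijective β ↔ ∀ j, Function.Bijective (β' j) := by
  classical
  have hs : ∀ (v : V) (j : J) (w : W' j), β v (f.symm (Pi.single j w)) = β' j (e v j) w := by
    intro v j w
    rw [h, LinearEquiv.apply_symm_apply, Finset.sum_eq_single j]
    · rw [Pi.single_eq_same]
    · intro l _ hl
      rw [Pi.single_eq_of_ne hl, map_zero]
    · intro hn; exact absurd (Finset.mem_univ j) hn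
  constructor
  · intro hβ j
    constructor
    · rw [injective_iff_map_eq_zero]
      intro v hv
      have h1 : β (e.symm (Pi.single j v)) = 0 := by
        refine LinearMap.ext fun w => ?_
        rw [h, LinearEquiv.apply_symm_apply, Finset.sum_eq_single j]
        · rw [Pi.single_eq_same, hv]; rfl
        · intro l _ hl
          rw [Pi.single_eq_of_ne hl, map_zero, LinearMap.zero_apply]
        · intro hn; exact absurd (Finset.mem_univ j) hn
      have h2 := (injective_iff_map_eq_zero _).1 hβ.1 _ h1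
      rw [LinearEquiv.map_eq_zero_iff] at h2
      have h5 := congrFun h2 j
      rwa [Pi.single_eq_same] at h5
    · intro g
      obtain ⟨v, hv⟩ := hβ.2 (g ∘ₗ LinearMap.proj j ∘ₗ f.toLinearMap)
      refine ⟨e v j, LinearMap.ext fun w => ?_⟩
      rw [← hs, hv]
      simp
  · intro hβ
    constructor
    · rw [injective_iff_map_eq_zero]
      intro v hv
      apply e.injective
      rw [map_zero]
      funext j
      refine (injective_iff_map_eq_zero _).1 (hβ j).1 _ (LinearMap.ext fun w => ?_)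
      rw [← hs, hv]; rfl
    · intro g
      choose v hv using fun j => (hβ j).2 (g ∘ₗ f.symm.toLinearMap ∘ₗ LinearMap.single ℚ W' j)
      refine ⟨e.symm v, LinearMap.ext fun w => ?_⟩
      rw [h, LinearEquiv.apply_symm_apply]
      have h1 : w = f.symm (∑ j, Pi.single j (f w j)) := by
        rw [Finset.univ_sum_single, LinearEquiv.symm_apply_apply]
      conv_rhs => rw [h1]
      rw [map_sum, map_sum]
      refine Finset.sum_congr rfl fun j _ => ?_
      rw [hv]
      rfl

theorem pf_pi_iff {J : Type*} [Fintype J] {V' W' : J → Type*} [∀ j, AddCommGroup (V' j)]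
    [∀ j, Module ℚ (V' j)] [∀ j, AddCommGroup (W' j)] [∀ j, Module ℚ (W' j)]
    (β : V →ₗ[ℚ] W →ₗ[ℚ] ℚ) (β' : ∀ j, V' j →ₗ[ℚ] W' j →ₗ[ℚ] ℚ)
    (e : V ≃ₗ[ℚ] (∀ j, V' j)) (f : W ≃ₗ[ℚ] (∀ j, W' j))
    (h : ∀ v w, β v w = ∑ j, β' j (e v j) (f w j)) : Pf β ↔ ∀ j, Pf (β' j) := by
  unfold Pf
  rw [bij_pi_iff β β' e f h, bij_pi_iff β.flip (fun j => (β' j).flip) f e fun w v => by
    rw [LinearMap.flip_apply, h]; rfl, forall_and]

end lin

variable {k : Type u} [Field k] {𝒱 : VarClass k} {C : TheoryData.{u, 0, 0} 𝒱 ℚ} {K : Type}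
  [Field K] [CharZero K] {H : WeilTheoryData.{u, 0, 0} C K} [hC : IsChow C] [hH : IsWeil H]
  {A Z : 𝒱.Obj} {J : Type} [Fintype J] {deg : J → ℕ} {D E : J → C.A A}

theorem isDual_symm (h : IsDual A Z deg D E) : IsDual A Z (fun j => A.dim - deg j) E D where
  le := fun j => Nat.sub_le _ _
  left := fun j => by
    have h1 := h.right j
    rwa [← Nat.cast_sub (h.le j)] at h1
  right := fun j => by
    have h1 := h.left j
    rw [Nat.cast_sub (h.le j), sub_sub_cancel]
    exact h1
  eq := fun i => by rw [chow_mul_comm]; exact h.eq i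
  ne := fun i j hij => by rw [chow_mul_comm]; exact h.ne j i hij.symm

theorem kun_expand (h : IsDual A Z deg D E) {T : CorrData C} (hT : IsCorrTheory T)
    (hK : HasKunneth T A Z deg D) {i : ℤ} {m : T.M (A.prod Z)} (hm : m ∈ T.gr (A.prod Z) i) :
    m = ∑ j, T.act (extBy C Z (D j)) (T.act (pairBy C Z (E j)) m) := by
  classical
  obtain ⟨z, ⟨-, hz⟩, -⟩ := hK i m hm
  have h1 : ∀ j, T.act (pairBy C Z (E j)) m = z j := by
    intro j
    rw [hz, map_sum, Finset.sum_congr rfl fun i _ => act_pair_ext hT h i j (z i),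
      Finset.sum_ite_eq', if_pos (Finset.mem_univ _)]
  rw [Finset.sum_congr rfl fun j _ => by rw [h1 j]]
  exact hz

/-- The expansion with respect to the dual classes. -/
theorem kun_dual (hS : IsStandard H) (h : IsDual A Z deg D E)
    (hK : HasKunneth (chowData C) A Z deg D) {T : CorrData C} (hT : IsCorrTheory T)
    (hKT : HasKunneth T A Z deg D) {i : ℤ} {m : T.M (A.prod Z)}
    (hm : m ∈ T.gr (A.prod Z) i) :
    m = ∑ j, T.act (extBy C Z (E j)) (T.act (pairBy C Z (D j)) m) := by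
  have h0 : ∀ j l, ∃ c : ℚ, C.push (snd A Z) (C.pull (fst A Z) (E j * E l)) = c • (1 : C.A Z) :=
    fun j l => const_of_mem hS (C.mul_mem (h.right j) (h.right l))
  choose c hc using h0
  have hsymm : ∀ j l, c j l = c l j := by
    intro j l
    have h1 : (c j l - c l j) • (1 : C.A Z) = 0 := by
      rw [sub_smul, ← hc, ← hc, chow_mul_comm (E j) (E l), sub_self]
    rcases smul_eq_zero.1 h1 with h | h
    · exact sub_eq_zero.1 h
    · exact absurd h (chow_one_ne hS)
  have hE : ∀ j, C.pull (fst A Z) (E j) = ∑ l, c l j • C.pull (fst A Z) (D l) := by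
    intro j
    have h1 := chow_expand h hK (C.pull_mem (fst A Z) (h.right j))
    rw [h1]
    refine Finset.sum_congr rfl fun l _ => ?_
    rw [← map_mul, hc, TheoryData.ext, map_smul, map_one, mul_smul_comm, mul_one]
  have hext : ∀ j, extBy C Z (E j) = ∑ l, c l j • extBy C Z (D l) := by
    intro j
    rw [extBy, hE j, map_sum]
    exact Finset.sum_congr rfl fun l _ => map_smul _ _ _
  have hpair : ∀ j, pairBy C Z (E j) = ∑ l, c l j • pairBy C Z (D l) := by
    intro j
    rw [pairBy, hE j, map_sum]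
    exact Finset.sum_congr rfl fun l _ => map_smul _ _ _
  calc m = ∑ l, T.act (extBy C Z (D l)) (T.act (pairBy C Z (E l)) m) := kun_expand h hT hKT hm
    _ = ∑ l, ∑ j, c j l • T.act (extBy C Z (D l)) (T.act (pairBy C Z (D j)) m) := by
        refine Finset.sum_congr rfl fun l _ => ?_
        rw [hpair l, map_sum, LinearMap.sum_apply, map_sum]
        refine Finset.sum_congr rfl fun j _ => ?_
        rw [map_smul, LinearMap.smul_apply, map_smul]
    _ = ∑ j, ∑ l, c j l • T.act (extBy C Z (D l)) (T.act (pairBy C Z (D j)) m) :=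
        Finset.sum_comm
    _ = _ := by
        refine Finset.sum_congr rfl fun j _ => ?_
        rw [hext j, map_sum, LinearMap.sum_apply]
        refine Finset.sum_congr rfl fun l _ => ?_
        rw [map_smul, LinearMap.smul_apply, hsymm]

/-- The components of an element. -/
theorem exists_eT (h : IsDual A Z deg D E) {T : CorrData C} (hT : IsCorrTheory T)
    (hexp : ∀ (i : ℤ) (m : T.M (A.prod Z)), m ∈ T.gr (A.prod Z) i →
      m = ∑ j, T.act (extBy C Z (D j)) (T.act (pairBy C Z (E j)) m)) (n : ℤ) (d : J → ℤ)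
    (hd : ∀ j, d j = n - deg j) :
    ∃ e : T.gr (A.prod Z) n ≃ₗ[ℚ] (∀ j, T.gr Z (d j)), ∀ x j,
      (e x j : T.M Z) = T.act (pairBy C Z (E j)) (x : T.M (A.prod Z)) := by
  classical
  refine ⟨{
    toFun := fun x j => ⟨T.act (pairBy C Z (E j)) (x : T.M (A.prod Z)), by
      have h1 := act_pair_mem hT h j x.2
      rwa [← sub_eq_add_neg, ← hd] at h1⟩
    map_add' := fun x y => by
      funext j
      apply Subtype.ext
      simp only [Submodule.coe_add, Pi.add_apply, map_add]
    map_smul' := fun c x => by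
      funext j
      apply Subtype.ext
      simp only [Submodule.coe_smul, Pi.smul_apply, map_smul, RingHom.id_apply]
    invFun := fun z => ⟨∑ j, T.act (extBy C Z (D j)) (z j : T.M Z),
      Submodule.sum_mem _ fun j _ => by
        have h1 := act_ext_mem hT h j (z j).2
        have h2 : d j + (deg j : ℤ) = n := by rw [hd]; ring
        rwa [h2] at h1⟩
    left_inv := fun x => by
      apply Subtype.ext
      exact (hexp n x x.2).symm
    right_inv := fun z => ?_ }, fun x j => rfl⟩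
  funext j
  apply Subtype.ext
  show T.act (pairBy C Z (E j)) (∑ l, T.act (extBy C Z (D l)) (z l : T.M Z)) = z j
  rw [map_sum, Finset.sum_congr rfl fun i _ => act_pair_ext hT h i j _, Finset.sum_ite_eq',
    if_pos (Finset.mem_univ _)]

/-- The pairings are compatible with correspondences. -/
def Adj (T T' : CorrData C) (b : ∀ X : 𝒱.Obj, T.M X →ₗ[ℚ] T'.M X →ₗ[ℚ] ℚ) : Prop :=
  ∀ {X Y : 𝒱.Obj} (Γ : C.A (X.prod Y)) (t : T.M X) (t' : T'.M Y),
    b Y (T.act Γ t) t' = b X t (T'.act (C.push (Obj.lift (snd X Y) (fst X Y)) Γ) t')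

variable {T T' : CorrData C} {b : ∀ X : 𝒱.Obj, T.M X →ₗ[ℚ] T'.M X →ₗ[ℚ] ℚ}

theorem adj_ext (hb : Adj T T' b) (c : C.A A) (z : T.M Z) (y : T'.M (A.prod Z)) :
    b (A.prod Z) (T.act (extBy C Z c) z) y = b Z z (T'.act (pairBy C Z c) y) := by
  have e1 : Obj.lift (snd A Z) (𝟙 (A.prod Z)) ≫ Obj.lift (snd Z (A.prod Z)) (fst Z (A.prod Z)) =
      Obj.lift (𝟙 (A.prod Z)) (snd A Z) := by
    apply prod_ext <;> simp [comp_lift]
  rw [hb, extBy, ← C.push_comp, e1]
  rfl

/-- The pairing of the elements of complementary degrees. -/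
def rb (b : ∀ X : 𝒱.Obj, T.M X →ₗ[ℚ] T'.M X →ₗ[ℚ] ℚ) (X : 𝒱.Obj) (n : ℤ) :
    T.gr X n →ₗ[ℚ] T'.gr X (X.dim - n) →ₗ[ℚ] ℚ :=
  (b X).domRestrict₁₂ (T.gr X n) (T'.gr X (X.dim - n))

theorem rb_apply (X : 𝒱.Obj) (n : ℤ) (x : T.gr X n) (y : T'.gr X (X.dim - n)) :
    rb b X n x y = b X x y := rfl

theorem pf_prod_iff (hS : IsStandard H) (h : IsDual A Z deg D E)
    (hK : HasKunneth (chowData C) A Z deg D) (hT : IsCorrTheory T) (hT' : IsCorrTheory T')
    (hKT : HasKunneth T A Z deg D) (hKT' : HasKunneth T' A Z deg D) (hb : Adj T T' b) (n : ℤ) :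
    Pf (rb b (A.prod Z) n) ↔ ∀ j, Pf (rb b Z (n - deg j)) := by
  obtain ⟨e, he⟩ := exists_eT h hT (fun i m hm => kun_expand h hT hKT hm) n
    (fun j => n - deg j) fun j => rfl
  obtain ⟨f, hf⟩ := exists_eT (isDual_symm h) hT' (fun i m hm => kun_dual hS h hK hT' hKT' hm)
    ((A.prod Z).dim - n) (fun j => Z.dim - (n - deg j)) fun j => by
      rw [Obj.dim_prod, Nat.cast_sub (h.le j)]
      push_cast
      ring
  refine pf_pi_iff _ (fun j => rb b Z (n - deg j)) e f fun x y => ?_
  rw [rb_apply]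
  have h1 := kun_expand h hT hKT x.2
  conv_lhs => rw [h1]
  rw [map_sum, LinearMap.sum_apply]
  refine Finset.sum_congr rfl fun j _ => ?_
  rw [adj_ext hb, rb_apply, he, hf]

variable {F : ∀ X : 𝒱.Obj, X ⟶ X} {Q : ℕ} {ι : Type} {X : ι → 𝒱.Obj} {S : ι → Set K}
  [IsAlgClosed K]

/-- **The pairings.** -/
theorem pf_tw (h : Cs H F Q X Z S) (hbig : ∀ i, Big H (X i)) {L : List ι} (hL : L.Nodup)
    (hT : IsCorrTheory T) (hT' : IsCorrTheory T') (hF : ∀ X, ActsAsPower T (F X) Q)
    (hF' : ∀ X, ActsAsPower T' (F X) Q) (hb : Adj T T' b) (n : ℤ) :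
    Pf (rb b (tw X Z L) n) ↔ ∀ m : ℤ, n - dims X L ≤ m → m ≤ n → Pf (rb b Z m) := by
  induction L generalizing n with
  | nil =>
    constructor
    · intro h1 m h2 h3
      have h4 : m = n := by
        simp only [dims, Nat.cast_zero, sub_zero] at h2
        omega
      rw [h4]
      exact h1
    · intro h1
      exact h1 n (by simp [dims]) le_rfl
  | cons i L ih =>
    rw [List.nodup_cons] at hL
    obtain ⟨J, hJ, deg, D, E, h1, h2, h3⟩ := h.step hL.1 hL.2
    have h4 : Pf (rb b (tw X Z (i :: L)) n) ↔ ∀ j, Pf (rb b (tw X Z L) (n - deg j)) :=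
      pf_prod_iff h.std h1 (h3 _ chowData_isCorrTheory fun X => chowData_actsAsPower (h.frob X))
        hT hT' (h3 T hT hF) (h3 T' hT' hF') hb n
    rw [h4]
    constructor
    · intro hp m hm1 hm2
      have hm3 : n - ((X i).dim + dims X L : ℕ) ≤ m := hm1
      push_cast at hm3
      obtain ⟨l, hl1, hl2, hl3⟩ : ∃ l : ℕ, l ≤ (X i).dim ∧ n - l - dims X L ≤ m ∧ m ≤ n - l := by
        rcases le_total ((n - m).toNat) (X i).dim with h5 | h5
        · exact ⟨(n - m).toNat, h5, by omega, by omega⟩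
        · exact ⟨(X i).dim, le_rfl, by omega, by omega⟩
      obtain ⟨j, hj⟩ := exists_deg_big (hbig i) h2 hl1
      have h5 := (ih hL.2 (n - deg j)).1 (hp j)
      rw [hj] at h5
      exact h5 m hl2 hl3
    · intro hp j
      rw [ih hL.2]
      intro m hm1 hm2
      have h5 := h1.le j
      refine hp m ?_ (by omega)
      change n - ((X i).dim + dims X L : ℕ) ≤ m
      push_cast
      omega

end Pool.Agent.Helper17.BP
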