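import Pool.Agent.Helper17.BP.MCDefs
import Pool.Agent.Helper17.BP.Pair
import Pool.Agent.W484.CK.Main

/-!
# The cup product pairings: proof
-/

set_option autoImplicit false

open Finset Polynomial CategoryTheory AlgebraicGeometry

namespace Pool.Agent.Helper17.BP

open Pool.Agent.H914 Pool.Agent.H914.VarClass Pool.Agent.H914.VarClass.Obj Pool.Agent.W492.BB
  Pool.Agent.W484.CK Pool.Agent.N876.CG

theorem perfect_main {κ : Type} [Field κ]
    {𝒱 : VarClass κ} {A : TheoryData.{0, 0, 0} 𝒱 ℚ} [IsChow A] {K : Type} [Field K]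
    [IsAlgClosed K] [CharZero K] {H : WeilTheoryData.{0, 0, 0} A K} [IsWeil H] {ι : Type}
    {F : ∀ X : 𝒱.Obj, X ⟶ X} {X : ι → 𝒱.Obj} {Z : 𝒱.Obj} {q : ℕ} {S : ι → Set K}
    (hS : Cs H F q X Z S) (hbig : ∀ i, Big H (X i))
    (M : MotivicCohomology A) (hM : IsMotivicCohomology M F q) (L : List ι)
    (hL : L.Nodup) :
    (∀ i n : ℤ, M.IsPerfect (tw X Z L) i n ↔
      ∀ k : ℕ, k ≤ dims X L → M.IsPerfect Z (i - 2 * k) (n - k)) ∧
    (∀ i n : ℤ, M.IsZero (tw X Z L) i n ↔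
      ∀ k : ℕ, k ≤ dims X L → M.IsZero Z (i - 2 * k) (n - k)) ∧
    ((∀ i n : ℤ, M.IsPerfect (tw X Z L) i n) ↔ ∀ i n : ℤ, M.IsPerfect Z i n) := by
  have hT : ∀ m, Pool.Agent.W484.CH.IsCorrTheory (toCorr (M.H m)) := fun m =>
    toCorr_isCorrTheory (hM.motivic m)
  have hF : ∀ m X, Pool.Agent.W484.CH.ActsAsPower (toCorr (M.H m)) (F X) q :=
    fun m X => toCorr_actsAsPower (hM.frobenius m X)
  have hb : ∀ m, Adj (toCorr (M.H m)) (toCorr (M.H (-m))) (M.cup m) := fun m {X Y} Γ t t' =>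
    hM.adjoint m Γ t t'
  have key : ∀ (p : 𝒱.Obj → ℤ → ℤ → Prop) (P : ℤ → 𝒱.Obj → ℤ → Prop),
      (∀ X i n, p X i n ↔ ∀ m : ℤ, i = 2 * n - m → P m X n) →
      (∀ m n, P m (tw X Z L) n ↔ ∀ l : ℤ, n - dims X L ≤ l → l ≤ n → P m Z l) →
      ∀ i n : ℤ, p (tw X Z L) i n ↔ ∀ k : ℕ, k ≤ dims X L → p Z (i - 2 * k) (n - k) := by
    intro p P hp hP i n
    rw [hp]
    constructor
    · intro h1 k hk
      rw [hp]
      intro m hm
      exact (hP m n).1 (h1 m (by omega)) _ (by omega) (by omega)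
    · intro h1 m hm
      rw [hP]
      intro l hl1 hl2
      obtain ⟨k, hk⟩ := Int.eq_ofNat_of_zero_le (sub_nonneg.2 hl2)
      have h2 := (hp _ _ _).1 (h1 k (by omega)) m (by omega)
      have h3 : n - (k : ℤ) = l := by omega
      rwa [h3] at h2
  have h1 := key M.IsPerfect
    (fun m X n => IsPerfectOn (M.cup m X) ((M.H m).gr X n) ((M.H (-m)).gr X (X.dim - n)))
    (fun _ _ _ => Iff.rfl)
    (fun m n => pf_tw hS hbig hL (hT m) (hT (-m)) (hF m) (hF (-m)) (hb m) n)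
  refine ⟨h1, key M.IsZero (fun m X n => (M.H m).gr X n = ⊥) (fun _ _ _ => Iff.rfl)
    (fun m n => hS.vanish_tw hbig hL (hT m) (hF m) n), ⟨fun h2 i n => ?_, fun h2 i n => ?_⟩⟩
  · have h3 := (h1 i n).1 (h2 i n) 0 (Nat.zero_le _)
    simpa using h3
  · exact (h1 i n).2 fun k _ => h2 _ _

end Pool.Agent.Helper17.BP
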